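import Pool.Agent.R327.PN.Space

set_option autoImplicit false

/-!
# A regular space which is not totally paracompact although Alice has no winning strategy

The space consists of the reals and of isolated points `(i, j, ξ)`, where `i, j` are real and `ξ` is a
set of reals. A basic neighbourhood of the real `i` consists of `i` and of the points `(i, j, ξ)` and
`(j, i, ξ)` with `j` outside a finite set and `ξ` outside a set of size at most the continuum.
Bob has a winning strategy in the game with partial open neighbourhood assignments, so Alice has none.
-/

namespace Pool.Agent.Results.MP_2f53c7_gt.NotTotallyParacompact

open Pool.Agent.R327.PN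

/-- There is an infinite regular Hausdorff space in which Alice has no winning strategy in `G(X)` and
which is not totally paracompact. -/
theorem result : ∃ (X : Type) (_ : TopologicalSpace X),
    Infinite X ∧ T2Space X ∧ RegularSpace X ∧ ¬ AliceHasWinning X ∧ ¬ TotallyParacompact X :=
  ⟨Sp, inferInstance, inferInstance, inferInstance, inferInstance,
    not_alice_of_bob Sp.bobHasWinning, Sp.not_totallyParacompact⟩

end Pool.Agent.Results.MP_2f53c7_gt.NotTotallyParacompact
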